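import Pool.Agent.H.MP_07c8c2_lc.A
import Pool.Agent.H.MP_bbbdfa_lc.A

set_option autoImplicit false

open Cardinal Set Filter Pool.Agent.H.MP_07c8c2_lc

namespace Pool.Agent.Results.MP_becacd_lc.No

/-- tree Prikry forcing -/
structure Pr {K : Type} [LinearOrder K] (U : Ultrafilter K) : Type where
  s : List K
  T : Set (List K)
  mem : s ∈ T
  inc : ∀ t ∈ T, t.Pairwise (· < ·)
  down : ∀ t ∈ T, ∀ u, u <+: t → u ∈ T
  stem : ∀ t ∈ T, t <+: s ∨ s <+: t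
  big : ∀ t ∈ T, s <+: t → {a | t ++ [a] ∈ T} ∈ U

instance {K : Type} [LinearOrder K] (U : Ultrafilter K) : Preorder (Pr U) where
  le q p := q.s ∈ p.T ∧ p.s <+: q.s ∧ q.T ⊆ p.T
  le_refl p := ⟨p.mem, List.prefix_rfl, subset_rfl⟩
  le_trans _ _ _ a b := ⟨b.2.2 a.1, b.2.1.trans a.2.1, a.2.2.trans b.2.2⟩

section
variable {P L : Type} [Preorder P] [LinearOrder L]

/-- q forces that the set named by A agrees below a with the ground model set B -/
def Dec (A : Set (L × P)) (a : L) (B : Set L) (q : P) : Prop :=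
  ∀ x < a, (x ∈ B → Mem x A q) ∧ (x ∉ B → ∀ r ≤ q, ¬ Mem x A r)

/-- p forces that A names a fresh subset of L -/
def Fresh (A : Set (L × P)) (p : P) : Prop := (∀ a, Ex (Dec A a) p) ∧
  ∀ B : Set L, Ex (fun x r => (x ∉ B ∧ Mem x A r) ∨ (x ∈ B ∧ ∀ s ≤ r, ¬ Mem x A s)) p

end

theorem result (κ : Cardinal.{0}) (hκ : ℵ₀ < κ) (U : Ultrafilter κ.ord.ToType)
    (_h1 : CardinalInterFilter (U : Filter κ.ord.ToType) κ) (_h2 : ∀ a, U ≠ pure a)
    (A : Set ((Order.succ κ).ord.ToType × Pr U)) (p : Pr U) : ¬ Fresh A p := by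
  rintro ⟨a, b⟩
  let B := fun j => {x | ∃ q : Pr U, q.s = j ∧ Mem x A q}
  have k : ∀ q c D, Dec A c D q → Dec A c (B q.s) q := fun q c D h x i =>
    ⟨fun ⟨r, e, f⟩ => (h x i).1 (not_not.1 fun g => by
      let t : Pr U := ⟨q.s, q.T ∩ r.T, ⟨q.mem, e ▸ r.mem⟩, fun t a => q.inc t a.1,
        fun t a u b => ⟨q.down t a.1 u b, r.down t a.2 u b⟩, fun t a => q.stem t a.1,
        fun t a b => inter_mem (q.big t a.1 b) (r.big t a.2 (e ▸ b))⟩
      exact (h x i).2 g t ⟨q.mem, List.prefix_rfl, inter_subset_left⟩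
        (f.mono ⟨e ▸ r.mem, e ▸ List.prefix_rfl, inter_subset_right⟩)),
      fun e => (h x i).2 fun f => e ⟨q, rfl, (h x i).1 f⟩⟩
  choose! x hx using fun (y : List κ.ord.ToType × List κ.ord.ToType) (e : B y.1 ≠ B y.2) =>
    not_forall.1 (mt Set.ext e)
  have c : #(List κ.ord.ToType) ≤ κ := (mk_list_le_max _).trans (by simp [hκ.le])
  obtain ⟨g, hg⟩ := Pool.Agent.H.MP_bbbdfa_lc.bs hκ.le (by simpa using mul_le_of_le hκ.le c c) x
  obtain ⟨q, q1, D, q2⟩ := a g p le_rfl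
  obtain ⟨r, r1, y, r2⟩ := b (B q.s) q q1
  obtain ⟨d, hd⟩ := Pool.Agent.H.MP_bbbdfa_lc.bs hκ.le (ι := Bool) (mk_le_aleph0.trans (hκ).le)
    (cond · g y)
  obtain ⟨s, s1, E, s2⟩ := a d r (r1.trans q1)
  have u := k _ _ _ q2
  have v := k _ _ _ s2
  have e : B q.s = B s.s := not_not.1 fun e => hx (q.s, s.s) e ⟨fun i => not_not.1 fun j =>
    (v _ ((hg _).trans (hd true))).2 j s le_rfl (((u _ (hg _)).1 i).mono (s1.trans r1)),
      fun i => not_not.1 fun j => (u _ (hg _)).2 j s (s1.trans r1)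
        ((v _ ((hg _).trans (hd true))).1 i)⟩
  rcases r2 with ⟨i, j⟩ | ⟨i, j⟩
  · exact (v y (hd false)).2 (e ▸ i) s le_rfl (j.mono s1)
  · exact j s s1 ((v y (hd false)).1 (e ▸ i))

end Pool.Agent.Results.MP_becacd_lc.No
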